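import Pool.Agent.Helper85.IA.St

/-!
# Project IA (MP_953b28_co), part N, module RIM: cover indicators and images
-/

set_option autoImplicit false

namespace Pool.Agent.Helper10.IA85

open Finset Pool.Agent.Helper93.IA Pool.Agent.Helper85.IA

section

variable {α β γ : Type} [Fintype α] [Fintype β] [Fintype γ] [DecidableEq α] [DecidableEq β]
  [DecidableEq γ]

private theorem mem_P1 (σ : α × β → Option γ) (a : α) (b : β) (c : γ) :
    (a, b, c) ∈ P1 σ ↔ Us σ a b c := by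
  unfold P1
  rw [mem_filter]
  exact ⟨fun h => h.2, fun h => ⟨mem_univ _, h⟩⟩

private theorem imA (σ : α × β → Option γ) (a : α) (b : β) :
    (a, b) ∈ (P1 σ).image eA ↔ ∃ c, Us σ a b c := by
  rw [mem_image]
  constructor
  · rintro ⟨⟨a', b', c⟩, hT, h⟩
    simp only [eA, Prod.mk.injEq] at h
    obtain ⟨rfl, rfl⟩ := h
    exact ⟨c, (mem_P1 σ a' b' c).1 hT⟩
  · rintro ⟨c, h⟩
    exact ⟨(a, b, c), (mem_P1 σ a b c).2 h, rfl⟩

private theorem imB (σ : α × β → Option γ) (b : β) (c : γ) :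
    (b, c) ∈ (P1 σ).image eB ↔ ∃ a, Us σ a b c := by
  rw [mem_image]
  constructor
  · rintro ⟨⟨a, b', c'⟩, hT, h⟩
    simp only [eB, Prod.mk.injEq] at h
    obtain ⟨rfl, rfl⟩ := h
    exact ⟨a, (mem_P1 σ a b' c').1 hT⟩
  · rintro ⟨a, h⟩
    exact ⟨(a, b, c), (mem_P1 σ a b c).2 h, rfl⟩

private theorem imC (σ : α × β → Option γ) (c : γ) (a : α) :
    (c, a) ∈ (P1 σ).image eC ↔ ∃ b, Us σ a b c := by
  rw [mem_image]
  constructor
  · rintro ⟨⟨a', b, c'⟩, hT, h⟩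
    simp only [eC, Prod.mk.injEq] at h
    obtain ⟨rfl, rfl⟩ := h
    exact ⟨b, (mem_P1 σ a' b c').1 hT⟩
  · rintro ⟨b, h⟩
    exact ⟨(a, b, c), (mem_P1 σ a b c).2 h, rfl⟩

end

/-- RIM: cover indicators and images. -/
theorem hRIM : StKUB → StRIM := by
  intro hK α β γ _ _ _ _ _ _ σ
  obtain ⟨h1, h2, h3⟩ := hK α β γ σ
  refine ⟨fun a b => ?_, fun b c => ?_, fun c a => ?_⟩
  · rw [h1]
    by_cases h : ∃ c, Us σ a b c
    · rw [if_pos h, if_pos ((imA σ a b).2 h)]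
    · rw [if_neg h, if_neg (fun h' => h ((imA σ a b).1 h'))]
  · rw [h2]
    by_cases h : ∃ a, Us σ a b c
    · rw [if_pos h, if_pos ((imB σ b c).2 h)]
    · rw [if_neg h, if_neg (fun h' => h ((imB σ b c).1 h'))]
  · rw [h3]
    by_cases h : ∃ b, Us σ a b c
    · rw [if_pos h, if_pos ((imC σ c a).2 h)]
    · rw [if_neg h, if_neg (fun h' => h ((imC σ c a).1 h'))]

end Pool.Agent.Helper10.IA85
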